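import Pool.Agent.Y6.G.Stm

set_option autoImplicit false

/-!
# Job EP-PRT (adapted from the file of helper407): perturbation of the main modes
-/

open Set Filter Topology

namespace Pool.Agent.Y692.EP.PRT

open Pool.Agent.Y6.G
open Pool.Agent.Y6.F (DSol Mx κr rk code cd ln NM S_CODE S_IBP S_LIMR S_UC)
open Pool.Agent.Y6.M (qd mq Z3 C3 nsq len Md br Frame cK)

/-- sums over the pairs with a given sum -/
theorem psum (k : Z3) (φ : Md → ℝ) (h0 : ∀ a, 0 ≤ φ a) (hs : Summable φ) :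
    Summable (fun p : Md × Md => if p.1.1.1 + p.2.1.1 = k then φ p.1 else 0) ∧
    ∑' p : Md × Md, (if p.1.1.1 + p.2.1.1 = k then φ p.1 else 0) ≤ 2 * ∑' a, φ a := by
  classical
  have h1 : ∀ a : Md, Summable (fun b : Md => if a.1.1 + b.1.1 = k then φ a else 0) ∧
      ∑' b : Md, (if a.1.1 + b.1.1 = k then φ a else 0) ≤ 2 * φ a := by
    intro a
    by_cases hk : k - a.1.1 = 0
    · have e1 : (fun b : Md => if a.1.1 + b.1.1 = k then φ a else 0) = fun _ => 0 := by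
        funext b
        rw [if_neg]
        intro hb
        apply b.1.2
        rw [← hb] at hk
        simpa using hk
      rw [e1]
      refine ⟨summable_zero, ?_⟩
      rw [tsum_zero]
      linarith [h0 a]
    · have hz : ∀ b : Md, b ∉ ({((⟨k - a.1.1, hk⟩ : {k : Z3 // k ≠ 0}), true),
          ((⟨k - a.1.1, hk⟩ : {k : Z3 // k ≠ 0}), false)} : Finset Md) →
          (if a.1.1 + b.1.1 = k then φ a else 0) = 0 := by
        intro b hb
        rw [if_neg]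
        intro hab
        apply hb
        have hb1 : b.1 = ⟨k - a.1.1, hk⟩ := Subtype.ext (eq_sub_of_add_eq' hab)
        rw [Finset.mem_insert, Finset.mem_singleton]
        rcases hb2 : b.2
        · right
          exact Prod.ext hb1 hb2
        · left
          exact Prod.ext hb1 hb2
      refine ⟨summable_of_ne_finset_zero hz, ?_⟩
      rw [tsum_eq_sum hz]
      refine (Finset.sum_le_card_nsmul _ _ (φ a) (fun b _ => ?_)).trans ?_
      · split_ifs
        · exact le_rfl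
        · exact h0 a
      · rw [nsmul_eq_mul]
        apply mul_le_mul_of_nonneg_right _ (h0 a)
        exact_mod_cast Finset.card_le_two
  have h2 : Summable (fun a : Md => ∑' b : Md, (if a.1.1 + b.1.1 = k then φ a else 0)) := by
    refine Summable.of_nonneg_of_le (fun a => tsum_nonneg fun b => ?_) (fun a => (h1 a).2)
      (hs.mul_left 2)
    split_ifs
    · exact h0 a
    · exact le_rfl
  have h3 : Summable (fun p : Md × Md => if p.1.1.1 + p.2.1.1 = k then φ p.1 else 0) := by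
    rw [summable_prod_of_nonneg]
    · exact ⟨fun a => (h1 a).1, h2⟩
    · intro p
      change (0 : ℝ) ≤ if p.1.1.1 + p.2.1.1 = k then φ p.1 else 0
      split_ifs
      · exact h0 _
      · exact le_rfl
  refine ⟨h3, ?_⟩
  rw [h3.tsum_prod, ← tsum_mul_left]
  exact Summable.tsum_le_tsum (fun a => (h1 a).2) h2 (hs.mul_left 2)

theorem psum2 (k : Z3) (φ : Md → ℝ) (h0 : ∀ a, 0 ≤ φ a) (hs : Summable φ) :
    Summable (fun p : Md × Md => if p.1.1.1 + p.2.1.1 = k then φ p.2 else 0) ∧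
    ∑' p : Md × Md, (if p.1.1.1 + p.2.1.1 = k then φ p.2 else 0) ≤ 2 * ∑' a, φ a := by
  obtain ⟨h1, h2⟩ := psum k φ h0 hs
  have e1 : (fun p : Md × Md => if p.1.1.1 + p.2.1.1 = k then φ p.2 else 0) =
      (fun p : Md × Md => if p.1.1.1 + p.2.1.1 = k then φ p.1 else 0) ∘ (Equiv.prodComm Md Md) := by
    funext p
    change (if p.1.1.1 + p.2.1.1 = k then φ p.2 else 0) =
      (if p.2.1.1 + p.1.1.1 = k then φ p.2 else 0)
    by_cases hp : p.1.1.1 + p.2.1.1 = k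
    · rw [if_pos hp, if_pos (by rw [add_comm]; exact hp)]
    · rw [if_neg hp, if_neg (by rw [add_comm]; exact hp)]
  rw [e1]
  refine ⟨(Equiv.prodComm Md Md).summable_iff.2 h1, ?_⟩
  have e2 := (Equiv.prodComm Md Md).tsum_eq
    (fun p : Md × Md => if p.1.1.1 + p.2.1.1 = k then φ p.1 else 0)
  exact e2.le.trans h2

theorem al_ge (n : ℕ) : 10 ≤ al n := by
  induction n with
  | zero =>
    change 10 ≤ 10 ^ 100
    exact Nat.le_self_pow (by omega) 10
  | succ n ih =>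
    change 10 ≤ al n ^ (61)
    exact ih.trans (Nat.le_self_pow (by omega) _)

theorem αM_ge (n : ℕ) : 10 ≤ αM n := by
  unfold αM
  exact_mod_cast al_ge n

theorem αM_step (n : ℕ) : αM n ^ 4 ≤ αM (n + 1) := by
  have h1 : αM (n + 1) = αM n ^ (61) := by
    unfold αM
    change ((al n ^ (61) : ℕ) : ℝ) = _
    push_cast
    rfl
  rw [h1]
  exact pow_le_pow_right₀ (by linarith [αM_ge n]) (by omega)

/-- main with other, the other one is long -/
theorem num1 (L la lb C ea Eb E : ℝ) (hL : 2 ≤ L) (hlb : L / 4 ≤ lb) (hla : la ≤ L + lb)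
    (hla1 : 1 ≤ la) (hC0 : 0 ≤ C) (hC : C ≤ 2 * Real.pi * L) (_hea0 : 0 ≤ ea) (hea : ea ≤ 1)
    (hEb0 : 0 ≤ Eb) (hEb : Eb ≤ L ^ 2 / 2 * E) (hE : 0 ≤ E) :
    C * ea * ((10 ^ 20)⁻¹ * (lb ^ 7)⁻¹ * Eb) ≤ (10 ^ 15)⁻¹ * ((L ^ 3)⁻¹ * E) * la⁻¹ := by
  have hL0 : 0 < L := by linarith
  have hlb0 : 0 < lb := by linarith
  have h1 : C * ea ≤ 7 * L := by
    have h2 : C * ea ≤ C * 1 := mul_le_mul_of_nonneg_left hea hC0
    have h3 : 2 * Real.pi * L ≤ 7 * L :=
      mul_le_mul_of_nonneg_right (by linarith [Real.pi_lt_d2]) hL0.le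
    linarith
  have h2 : (lb ^ 7)⁻¹ ≤ 5 * 4096 * (L ^ 6)⁻¹ * la⁻¹ := by
    have h3 : (L / 4) ^ 6 * (la / 5) ≤ lb ^ 7 := by
      rw [pow_succ lb 6]
      apply mul_le_mul (pow_le_pow_left₀ (by positivity) hlb 6) (by linarith) (by positivity)
        (by positivity)
    have h4 : (lb ^ 7)⁻¹ ≤ ((L / 4) ^ 6 * (la / 5))⁻¹ :=
      inv_anti₀ (by positivity) h3
    refine h4.trans (le_of_eq ?_)
    field_simp
    norm_num
  calc C * ea * ((10 ^ 20)⁻¹ * (lb ^ 7)⁻¹ * Eb)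
      ≤ (7 * L) * ((10 ^ 20)⁻¹ * (5 * 4096 * (L ^ 6)⁻¹ * la⁻¹) * (L ^ 2 / 2 * E)) := by
        apply mul_le_mul h1 _ (by positivity) (by positivity)
        apply mul_le_mul _ hEb hEb0 (by positivity)
        exact mul_le_mul_of_nonneg_left h2 (by positivity)
    _ = (7 * 5 * 2048 * (10 ^ 20)⁻¹) * ((L ^ 3)⁻¹ * E) * la⁻¹ := by
        field_simp
        ring
    _ ≤ (10 ^ 15)⁻¹ * ((L ^ 3)⁻¹ * E) * la⁻¹ := by
        apply mul_le_mul_of_nonneg_right _ (by positivity)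
        apply mul_le_mul_of_nonneg_right _ (by positivity)
        norm_num

/-- two others -/
theorem num3 (L la lb C Ea Eb E : ℝ) (hL : 2 ≤ L) (hlb : L / 2 ≤ lb)
    (hla1 : 1 ≤ la) (_hC0 : 0 ≤ C) (hC : C ≤ 2 * Real.pi * L) (hEa0 : 0 ≤ Ea) (hEa : Ea ≤ 1)
    (hEb0 : 0 ≤ Eb) (hEb : Eb ≤ L * E) (hE : 0 ≤ E) :
    C * ((10 ^ 20)⁻¹ * (la ^ 7)⁻¹ * Ea) * ((10 ^ 20)⁻¹ * (lb ^ 7)⁻¹ * Eb) ≤
      (10 ^ 36)⁻¹ * ((L ^ 3)⁻¹ * E) * (la ^ 4)⁻¹ := by
  have hL0 : 0 < L := by linarith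
  have hlb0 : 0 < lb := by linarith
  have h1 : C ≤ 7 * L := by
    have h3 : 2 * Real.pi * L ≤ 7 * L :=
      mul_le_mul_of_nonneg_right (by linarith [Real.pi_lt_d2]) hL0.le
    linarith
  have h2 : (lb ^ 7)⁻¹ ≤ 128 * (L ^ 5)⁻¹ := by
    have h3 : (L / 2) ^ 7 ≤ lb ^ 7 := pow_le_pow_left₀ (by positivity) hlb 7
    have h4 : (lb ^ 7)⁻¹ ≤ ((L / 2) ^ 7)⁻¹ := inv_anti₀ (by positivity) h3
    refine h4.trans ?_
    have h5 : ((L / 2) ^ 7)⁻¹ = 128 * (L ^ 7)⁻¹ := by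
      field_simp
      norm_num
    rw [h5]
    apply mul_le_mul_of_nonneg_left _ (by norm_num)
    exact inv_anti₀ (by positivity) (pow_le_pow_right₀ (by linarith) (by norm_num))
  have h3 : (la ^ 7)⁻¹ * Ea ≤ (la ^ 4)⁻¹ := by
    have h4 : (la ^ 7)⁻¹ ≤ (la ^ 4)⁻¹ :=
      inv_anti₀ (by positivity) (pow_le_pow_right₀ hla1 (by norm_num))
    calc (la ^ 7)⁻¹ * Ea ≤ (la ^ 4)⁻¹ * 1 :=
          mul_le_mul h4 hEa hEa0 (by positivity)
      _ = (la ^ 4)⁻¹ := mul_one _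
  calc C * ((10 ^ 20)⁻¹ * (la ^ 7)⁻¹ * Ea) * ((10 ^ 20)⁻¹ * (lb ^ 7)⁻¹ * Eb)
      = C * ((10 ^ 20)⁻¹ * ((la ^ 7)⁻¹ * Ea)) * ((10 ^ 20)⁻¹ * (lb ^ 7)⁻¹ * Eb) := by ring
    _ ≤ (7 * L) * ((10 ^ 20)⁻¹ * (la ^ 4)⁻¹) * ((10 ^ 20)⁻¹ * (128 * (L ^ 5)⁻¹) * (L * E)) := by
        apply mul_le_mul _ _ (by positivity) (by positivity)
        · apply mul_le_mul h1 _ (by positivity) (by positivity)
          exact mul_le_mul_of_nonneg_left h3 (by positivity)
        · apply mul_le_mul _ hEb hEb0 (by positivity)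
          exact mul_le_mul_of_nonneg_left h2 (by positivity)
    _ = (7 * 128 * ((10 ^ 20)⁻¹ * (10 ^ 20)⁻¹)) * ((L ^ 3)⁻¹ * E) * (la ^ 4)⁻¹ := by
        field_simp
    _ ≤ (10 ^ 36)⁻¹ * ((L ^ 3)⁻¹ * E) * (la ^ 4)⁻¹ := by
        apply mul_le_mul_of_nonneg_right _ (by positivity)
        apply mul_le_mul_of_nonneg_right _ (by positivity)
        norm_num

/-- main with other, the other one is short -/
theorem num2 (x C ea Eb Mm : ℝ) (hx : 1 ≤ x) (_hC0 : 0 ≤ C) (hC : C ≤ 2 * Real.pi * x)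
    (hea0 : 0 ≤ ea) (hea : ea ≤ Mm) (hEb0 : 0 ≤ Eb) (hEb : Eb ≤ 1) :
    C * ea * ((10 ^ 20)⁻¹ * (x ^ 7)⁻¹ * Eb) ≤ (10 ^ 18)⁻¹ * (x ^ 6)⁻¹ * Mm := by
  have hM : 0 ≤ Mm := hea0.trans hea
  have h1 : C ≤ 7 * x := by
    have h3 : 2 * Real.pi * x ≤ 7 * x :=
      mul_le_mul_of_nonneg_right (by linarith [Real.pi_lt_d2]) (by linarith)
    linarith
  calc C * ea * ((10 ^ 20)⁻¹ * (x ^ 7)⁻¹ * Eb)
      ≤ (7 * x) * Mm * ((10 ^ 20)⁻¹ * (x ^ 7)⁻¹ * 1) := by
        apply mul_le_mul _ _ (by positivity) (by positivity)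
        · exact mul_le_mul h1 hea hea0 (by positivity)
        · exact mul_le_mul_of_nonneg_left hEb (by positivity)
    _ = (7 * (10 ^ 20)⁻¹) * (x ^ 6)⁻¹ * Mm := by
        field_simp
    _ ≤ (10 ^ 18)⁻¹ * (x ^ 6)⁻¹ * Mm := by
        apply mul_le_mul_of_nonneg_right _ hM
        apply mul_le_mul_of_nonneg_right _ (by positivity)
        norm_num

theorem t_PRT : S_RATE → S_PRT := by
  classical
  intro hR hLV hCODE hSUMS hVEC hLAT hENV h hF M hM z hz i hi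
  obtain ⟨hsum, -⟩ := hR hLV hCODE hSUMS hVEC hLAT hENV h hF M hM i
  obtain ⟨la1, la2⟩ := hLAT.1
  obtain ⟨lb1, lb2⟩ := hLAT.2 hLV
  obtain ⟨l1, l2, l3, l4, l5, l6, l7, l8, l9, l10, l11⟩ := hLV
  obtain ⟨c1, c2, c3, c4, c5, c6⟩ := hCODE
  obtain ⟨en1, en2, en3, en4, en5, -⟩ := hENV.1 M hM
  obtain ⟨v1, v2, v3, -⟩ := hVEC h hF
  have sb3 := hSUMS.2.2.2
  -- lengths of the main modes
  have hmain : ∀ a, σM a = 0 → αM (lvM a) ≤ ln a ∧ ln a ≤ 2 * αM (lvM a) := by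
    intro a ha
    obtain ⟨h1, h2⟩ := l7 a ha
    have h3 := (c5 a).2
    have h4 := (c5 a).1
    have h5 := αM_ge (lvM a)
    unfold NM at h1 h2
    rw [← h3] at h1 h2
    constructor
    · by_contra hlt
      push Not at hlt
      nlinarith
    · by_contra hlt
      push Not at hlt
      nlinarith
  have henvM : ∀ a, σM a = 0 → env M (ln a) = M (lvM a) := by
    intro a ha
    obtain ⟨h1, h2⟩ := hmain a ha
    have h5 := αM_ge (lvM a)
    exact en3 _ _ (by linarith) (by linarith)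
  obtain ⟨L, hLdef⟩ : ∃ L, L = ln i := ⟨_, rfl⟩
  obtain ⟨m, hmdef⟩ : ∃ m, m = lvM i := ⟨_, rfl⟩
  obtain ⟨hL1, hL2⟩ := hmain i hi
  have hEM : env M L = M m := by rw [hLdef, hmdef]; exact henvM i hi
  rw [← hLdef, ← hmdef] at hL1 hL2
  have hL10 : 10 ≤ L := (αM_ge m).trans hL1
  have hM0 : 0 < M m := by rw [← hEM]; exact (en5 L).1
  obtain ⟨A, hA⟩ : ∃ A, A = (L ^ 3)⁻¹ * M m := ⟨_, rfl⟩
  have hA0 : 0 ≤ A := by rw [hA]; positivity
  obtain ⟨A2, hA2⟩ : ∃ A2 : ℝ, A2 = if 1 ≤ m then (10 ^ 18)⁻¹ * (αM (m - 1) ^ 6)⁻¹ * M m else 0 :=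
    ⟨_, rfl⟩
  have hA20 : 0 ≤ A2 := by
    rw [hA2]
    split_ifs
    · have := αM_ge (m - 1)
      positivity
    · exact le_rfl
  obtain ⟨Φ, hΦ⟩ : ∃ Φ : Md → ℝ, Φ = fun a => (10 ^ 15)⁻¹ * A * (if σM a = 0 then (ln a)⁻¹ else 0) +
      (10 ^ 36)⁻¹ * A * (ln a ^ 4)⁻¹ + (if σM a = 0 ∧ lvM a = m then A2 else 0) := ⟨_, rfl⟩
  have hln0 : ∀ a : Md, 0 < ln a := fun a => lt_of_lt_of_le one_pos (c5 a).1
  have ht1 : ∀ a, 0 ≤ (10 ^ 15)⁻¹ * A * (if σM a = 0 then (ln a)⁻¹ else 0) := by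
    intro a
    have := hln0 a
    split_ifs <;> positivity
  have ht2 : ∀ a, 0 ≤ (10 ^ 36)⁻¹ * A * (ln a ^ 4)⁻¹ := by
    intro a
    have := hln0 a
    positivity
  have ht3 : ∀ a, 0 ≤ (if σM a = 0 ∧ lvM a = m then A2 else 0) := by
    intro a
    split_ifs
    · exact hA20
    · exact le_rfl
  have hΦ0 : ∀ a, 0 ≤ Φ a := by
    intro a
    rw [hΦ]
    exact add_nonneg (add_nonneg (ht1 a) (ht2 a)) (ht3 a)
  -- the sum of the majorant
  have hz3 : ∀ a : Md, a ∉ ({Xm m, br (Xm m), Ym (m - 1), br (Ym (m - 1))} : Finset Md) →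
      (if σM a = 0 ∧ lvM a = m then A2 else 0) = 0 := by
    intro a ha
    rw [if_neg]
    rintro ⟨h1, h2⟩
    apply ha
    simp only [Finset.mem_insert, Finset.mem_singleton]
    obtain ⟨n, hn⟩ := l3 a h1
    obtain ⟨q1, q2, q3, q4⟩ := l1 n
    rcases hn with hn | hn | hn | hn
    · rw [hn, q1] at h2
      rw [hn, h2]
      exact Or.inl rfl
    · rw [hn, q2] at h2
      rw [hn, h2]
      exact Or.inr (Or.inl rfl)
    · rw [hn, q3] at h2
      rw [hn, ← h2, Nat.add_sub_cancel]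
      exact Or.inr (Or.inr (Or.inl rfl))
    · rw [hn, q4] at h2
      rw [hn, ← h2, Nat.add_sub_cancel]
      exact Or.inr (Or.inr (Or.inr rfl))
  have hs3 : Summable (fun a : Md => if σM a = 0 ∧ lvM a = m then A2 else 0) :=
    summable_of_ne_finset_zero hz3
  have hs3' : ∑' a : Md, (if σM a = 0 ∧ lvM a = m then A2 else 0) ≤ 4 * A2 := by
    rw [tsum_eq_sum hz3]
    refine (Finset.sum_le_card_nsmul _ _ A2 (fun b _ => ?_)).trans ?_
    · split_ifs
      · exact le_rfl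
      · exact hA20
    · rw [nsmul_eq_mul]
      apply mul_le_mul_of_nonneg_right _ hA20
      exact_mod_cast Finset.card_le_four
  have hsΦ : Summable Φ := by
    rw [hΦ]
    exact ((lb1.mul_left _).add (la1.mul_left _)).add hs3
  have hsΦ' : ∑' a, Φ a ≤ (10 ^ 14)⁻¹ * A + 4 * A2 := by
    rw [hΦ, Summable.tsum_add ((lb1.mul_left _).add (la1.mul_left _)) hs3,
      Summable.tsum_add (lb1.mul_left _) (la1.mul_left _), tsum_mul_left, tsum_mul_left]
    have e1 : (10 ^ 15)⁻¹ * A * ∑' a : Md, (if σM a = 0 then (ln a)⁻¹ else 0) ≤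
        (10 ^ 15)⁻¹ * A * 1 := mul_le_mul_of_nonneg_left lb2 (by positivity)
    have e2 : (10 ^ 36)⁻¹ * A * ∑' a : Md, (ln a ^ 4)⁻¹ ≤ (10 ^ 36)⁻¹ * A * 1000 :=
      mul_le_mul_of_nonneg_left la2 (by positivity)
    have e3 : (10 ^ 15)⁻¹ * A * 1 + (10 ^ 36)⁻¹ * A * 1000 ≤ (10 ^ 14)⁻¹ * A := by
      have : (10 ^ 15)⁻¹ * A * 1 + (10 ^ 36)⁻¹ * A * 1000 =
          ((10 ^ 15)⁻¹ + (10 ^ 36)⁻¹ * 1000) * A := by ring
      rw [this]
      apply mul_le_mul_of_nonneg_right _ hA0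
      norm_num
    linarith
  -- one main mode
  have hpt1 : ∀ a b : Md, σM a = 0 → σM b ≠ 0 → a.1.1 + b.1.1 = i.1.1 → ∀ C : ℝ, 0 ≤ C →
      C ≤ 2 * Real.pi * L → (a.2 ≠ i.2 → C ≤ 2 * Real.pi * ln b) →
      C * eF M a * eF M b ≤ Φ a := by
    intro a b ha hb hab C hC0 hC1 hC2
    have ea : eF M a = env M (ln a) := by unfold eF; rw [if_pos ha]
    have eb : eF M b = (10 ^ 20)⁻¹ * (ln b ^ 7)⁻¹ * env M (ln b) := by unfold eF; rw [if_neg hb]
    rw [ea, eb]
    obtain ⟨t1, t2, t3⟩ := c6 i a b hab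
    rw [← hLdef] at t1 t2 t3
    by_cases hlb : L / 4 ≤ ln b
    · have e1 := num1 L (ln a) (ln b) C (env M (ln a)) (env M (ln b)) (M m) (by linarith) hlb t2
        (c5 a).1 hC0 hC1 (en5 _).1.le (en5 _).2 (en5 _).1.le (by
          have q1 := en1 (L / 4) (ln b) (by linarith) hlb
          have q2 := en2 (L / 2) (by linarith)
          have q3 := en2 L (by linarith)
          have q4 : L / 2 / 2 = L / 4 := by ring
          rw [q4] at q2
          rw [hEM] at q3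
          have q5 : L / 2 * env M (L / 2) ≤ L / 2 * (L * M m) :=
            mul_le_mul_of_nonneg_left q3 (by linarith)
          have q6 : L / 2 * (L * M m) = L ^ 2 / 2 * M m := by ring
          linarith) hM0.le
      refine e1.trans ?_
      rw [hΦ]
      simp only
      rw [if_pos ha, ← hA]
      linarith [ht2 a, ht3 a]
    · push Not at hlb
      have hia : i.1.1 ≠ a.1.1 := by
        intro hh
        apply b.1.2
        rw [hh] at hab
        simpa using hab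
      have hsub : i.1.1 - a.1.1 = b.1.1 := (eq_sub_of_add_eq' hab).symm
      obtain ⟨n, n1, n2, n3, n4⟩ := sb3 i a hi ha hia (by
        rw [hsub, ← hLdef]
        change 4 * ln b < L
        linarith)
      rw [hsub] at n3
      change ln b = αM n at n3
      have e1 := num2 (ln b) C (env M (ln a)) (env M (ln b)) (M m) (c5 b).1 hC0
        (hC2 (fun hh => n4 hh.symm)) (en5 _).1.le (by
          rw [henvM a ha, n2, hmdef, n1]) (en5 _).1.le (en5 _).2
      refine e1.trans ?_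
      rw [hΦ]
      simp only
      have hm1 : 1 ≤ m := by omega
      have e2 : (if σM a = 0 ∧ lvM a = m then A2 else 0) = (10 ^ 18)⁻¹ * (ln b ^ 6)⁻¹ * M m := by
        rw [if_pos ⟨ha, by omega⟩, hA2, if_pos hm1, n3]
        have : m - 1 = n := by omega
        rw [this]
      rw [e2]
      linarith [ht1 a, ht2 a]
  -- two other modes
  have hpt3 : ∀ a b : Md, σM a ≠ 0 → σM b ≠ 0 → L / 2 ≤ ln b → ∀ C : ℝ, 0 ≤ C →
      C ≤ 2 * Real.pi * L → C * eF M a * eF M b ≤ Φ a := by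
    intro a b ha hb hlb C hC0 hC1
    have ea : eF M a = (10 ^ 20)⁻¹ * (ln a ^ 7)⁻¹ * env M (ln a) := by unfold eF; rw [if_neg ha]
    have eb : eF M b = (10 ^ 20)⁻¹ * (ln b ^ 7)⁻¹ * env M (ln b) := by unfold eF; rw [if_neg hb]
    rw [ea, eb]
    have e1 := num3 L (ln a) (ln b) C (env M (ln a)) (env M (ln b)) (M m) (by linarith) hlb
      (c5 a).1 hC0 hC1 (en5 _).1.le (en5 _).2 (en5 _).1.le (by
        have q1 := en1 (L / 2) (ln b) (by linarith) hlb
        have q3 := en2 L (by linarith)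
        rw [hEM] at q3
        linarith) hM0.le
    refine e1.trans ?_
    rw [hΦ]
    simp only
    rw [← hA]
    linarith [ht1 a, ht3 a]
  -- all pairs
  have hpt : ∀ p : Md × Md, ‖(if σM p.1 = 0 ∧ σM p.2 = 0 then (0 : ℂ) else
      cK h i p.1 p.2 * z p.1 * z p.2)‖ ≤ (if p.1.1.1 + p.2.1.1 = i.1.1 then Φ p.1 else 0) +
        (if p.1.1.1 + p.2.1.1 = i.1.1 then Φ p.2 else 0) := by
    rintro ⟨a, b⟩
    simp only
    by_cases hab : a.1.1 + b.1.1 = i.1.1
    · rw [if_pos hab, if_pos hab]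
      by_cases hmm : σM a = 0 ∧ σM b = 0
      · rw [if_pos hmm, norm_zero]
        exact add_nonneg (hΦ0 a) (hΦ0 b)
      · rw [if_neg hmm, norm_mul, norm_mul]
        obtain ⟨w1, w2⟩ := v2 i a b
        rw [← hLdef] at w1
        have hb1 : ‖cK h i a b‖ * ‖z a‖ * ‖z b‖ ≤ ‖cK h i a b‖ * eF M a * eF M b := by
          have g1 := hz a
          have g2 := hz b
          have g3 : ‖cK h i a b‖ * ‖z a‖ ≤ ‖cK h i a b‖ * eF M a :=
            mul_le_mul_of_nonneg_left g1 (norm_nonneg _)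
          exact mul_le_mul g3 g2 (norm_nonneg _)
            (mul_nonneg (norm_nonneg _) ((norm_nonneg _).trans g1))
        refine hb1.trans ?_
        by_cases ha : σM a = 0
        · have hb : σM b ≠ 0 := fun hb => hmm ⟨ha, hb⟩
          have := hpt1 a b ha hb hab _ (norm_nonneg _) w1 (fun _ => w2)
          linarith [hΦ0 b]
        · by_cases hb : σM b = 0
          · have h5 := hpt1 b a hb ha (by rw [add_comm]; exact hab) ‖cK h i a b‖ (norm_nonneg _) w1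
              (by
                intro hne
                have h6 := v3 i b a hne hab
                rw [← hLdef] at h6
                have h7 : 0 < ln b := hln0 b
                have h8 : 0 < ln a := hln0 a
                have h9 : ‖cK h i a b‖ * ln b ≤ ‖cK h i a b‖ * (ln b + L) :=
                  mul_le_mul_of_nonneg_left (by linarith) (norm_nonneg _)
                have h10 : ‖cK h i a b‖ * ln b ≤ (2 * Real.pi * ln a) * ln b := by
                  have : 2 * Real.pi * ln b * ln a = (2 * Real.pi * ln a) * ln b := by ring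
                  linarith
                exact le_of_mul_le_mul_right h10 h7)
            have h11 : ‖cK h i a b‖ * eF M a * eF M b = ‖cK h i a b‖ * eF M b * eF M a := by ring
            rw [h11]
            linarith [hΦ0 a]
          · obtain ⟨t1, t2, t3⟩ := c6 i a b hab
            rw [← hLdef] at t1
            by_cases hlb : L / 2 ≤ ln b
            · have := hpt3 a b ha hb hlb _ (norm_nonneg _) w1
              linarith [hΦ0 b]
            · have h5 := hpt3 b a hb ha (by linarith) ‖cK h i a b‖ (norm_nonneg _) w1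
              have h11 : ‖cK h i a b‖ * eF M a * eF M b = ‖cK h i a b‖ * eF M b * eF M a := by ring
              rw [h11]
              linarith [hΦ0 a]
    · rw [if_neg hab, if_neg hab]
      have : cK h i a b = 0 := by unfold cK; rw [if_neg hab]
      rw [this, zero_mul, zero_mul]
      split_ifs <;> simp
  -- summability and conclusion
  have hnn : ∀ p : Md × Md, ‖cK h i p.1 p.2 * z p.1 * z p.2‖ ≤
      ‖cK h i p.1 p.2‖ * eF M p.1 * eF M p.2 := by
    intro p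
    rw [norm_mul, norm_mul]
    have g3 : ‖cK h i p.1 p.2‖ * ‖z p.1‖ ≤ ‖cK h i p.1 p.2‖ * eF M p.1 :=
      mul_le_mul_of_nonneg_left (hz p.1) (norm_nonneg _)
    exact mul_le_mul g3 (hz p.2) (norm_nonneg _)
      (mul_nonneg (norm_nonneg _) ((norm_nonneg _).trans (hz p.1)))
  have sF : Summable (fun p : Md × Md => cK h i p.1 p.2 * z p.1 * z p.2) :=
    Summable.of_norm_bounded hsum hnn
  have sFm : Summable (fun p : Md × Md => if σM p.1 = 0 ∧ σM p.2 = 0 then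
      cK h i p.1 p.2 * z p.1 * z p.2 else 0) := by
    refine Summable.of_norm_bounded hsum (fun p => ?_)
    split_ifs
    · exact hnn p
    · rw [norm_zero]
      exact (norm_nonneg _).trans (hnn p)
  have hdiff : qd (cK h) z i - mq σM (cK h) z i = ∑' p : Md × Md,
      (if σM p.1 = 0 ∧ σM p.2 = 0 then (0 : ℂ) else cK h i p.1 p.2 * z p.1 * z p.2) := by
    have e1 : mq σM (cK h) z i = ∑' p : Md × Md, (if σM p.1 = 0 ∧ σM p.2 = 0 then
      cK h i p.1 p.2 * z p.1 * z p.2 else 0) := by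
      unfold mq
      refine tsum_congr (fun p => ?_)
      split_ifs <;> rfl
    have e2 : qd (cK h) z i = ∑' p : Md × Md, cK h i p.1 p.2 * z p.1 * z p.2 := rfl
    rw [e1, e2, ← Summable.tsum_sub sF sFm]
    refine tsum_congr (fun p => ?_)
    split_ifs
    · exact sub_self _
    · exact sub_zero _
  obtain ⟨u1, u2⟩ := psum i.1.1 Φ hΦ0 hsΦ
  obtain ⟨u3, u4⟩ := psum2 i.1.1 Φ hΦ0 hsΦ
  rw [hdiff]
  refine (tsum_of_norm_bounded (u1.add u3).hasSum hpt).trans ?_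
  rw [Summable.tsum_add u1 u3, ← hmdef]
  have hfin : 4 * ((10 ^ 14)⁻¹ * A + 4 * A2) ≤ κr αM m * M m := by
    rw [hA, hA2]
    rcases m with _ | n
    · rw [if_neg (by omega)]
      change _ ≤ (αM 0)⁻¹ * M 0
      have q1 : (L ^ 3)⁻¹ ≤ (αM 0)⁻¹ := by
        apply inv_anti₀ (by linarith [αM_ge 0])
        refine hL1.trans ?_
        calc L = L ^ 1 := (pow_one L).symm
          _ ≤ L ^ 3 := pow_le_pow_right₀ (by linarith) (by norm_num)
      have q2 : 4 * ((10 ^ 14)⁻¹ * ((L ^ 3)⁻¹ * M 0) + 4 * 0) =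
          (4 * (10 ^ 14)⁻¹) * ((L ^ 3)⁻¹ * M 0) := by ring
      rw [q2]
      have q3 : (L ^ 3)⁻¹ * M 0 ≤ (αM 0)⁻¹ * M 0 := mul_le_mul_of_nonneg_right q1 hM0.le
      have q4 : 0 ≤ (L ^ 3)⁻¹ * M 0 := by positivity
      have q5 : (4 * (10 ^ 14)⁻¹) * ((L ^ 3)⁻¹ * M 0) ≤ 1 * ((L ^ 3)⁻¹ * M 0) :=
        mul_le_mul_of_nonneg_right (by norm_num) q4
      linarith
    · rw [if_pos (by omega), Nat.add_sub_cancel]
      change _ ≤ (αM n ^ 4)⁻¹ * M (n + 1)
      have hαn := αM_ge n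
      have q1 : (L ^ 3)⁻¹ ≤ (αM n ^ 4)⁻¹ := by
        apply inv_anti₀ (by positivity)
        refine (αM_step n).trans (hL1.trans ?_)
        calc L = L ^ 1 := (pow_one L).symm
          _ ≤ L ^ 3 := pow_le_pow_right₀ (by linarith) (by norm_num)
      have q2 : (αM n ^ 6)⁻¹ ≤ (αM n ^ 4)⁻¹ :=
        inv_anti₀ (by positivity) (pow_le_pow_right₀ (by linarith) (by norm_num))
      have q3 : 4 * ((10 ^ 14)⁻¹ * ((L ^ 3)⁻¹ * M (n + 1)) +
          4 * ((10 ^ 18)⁻¹ * (αM n ^ 6)⁻¹ * M (n + 1))) =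
          (4 * (10 ^ 14)⁻¹) * ((L ^ 3)⁻¹ * M (n + 1)) +
          (16 * (10 ^ 18)⁻¹) * ((αM n ^ 6)⁻¹ * M (n + 1)) := by ring
      rw [q3]
      have q4 : (L ^ 3)⁻¹ * M (n + 1) ≤ (αM n ^ 4)⁻¹ * M (n + 1) :=
        mul_le_mul_of_nonneg_right q1 hM0.le
      have q5 : (αM n ^ 6)⁻¹ * M (n + 1) ≤ (αM n ^ 4)⁻¹ * M (n + 1) :=
        mul_le_mul_of_nonneg_right q2 hM0.le
      have q6 : 0 ≤ (L ^ 3)⁻¹ * M (n + 1) := by positivity
      have q7 : 0 ≤ (αM n ^ 6)⁻¹ * M (n + 1) := by positivity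
      have q8 : (4 * (10 ^ 14)⁻¹) * ((L ^ 3)⁻¹ * M (n + 1)) ≤ (1 / 2) * ((L ^ 3)⁻¹ * M (n + 1)) :=
        mul_le_mul_of_nonneg_right (by norm_num) q6
      have q9 : (16 * (10 ^ 18)⁻¹) * ((αM n ^ 6)⁻¹ * M (n + 1)) ≤
          (1 / 2) * ((αM n ^ 6)⁻¹ * M (n + 1)) :=
        mul_le_mul_of_nonneg_right (by norm_num) q7
      linarith
  linarith

end Pool.Agent.Y692.EP.PRT
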