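import Pool.Agent.Y6.G.Stm

set_option autoImplicit false

/-!
# Job EP-SPD: the speeds of the modes and the polynomials
-/

open Set Filter Topology

namespace Pool.Agent.Y692.EP.SPD

open Pool.Agent.Y6.G
open Pool.Agent.Y6.F (DSol Mx κr rk code cd ln NM S_CODE S_IBP S_LIMR S_UC)
open Pool.Agent.Y6.M (qd mq Z3 C3 nsq len Md br Frame cK sgz)

theorem ev_X (k : Z3) (j : Fin 3) : ev (MvPolynomial.X j) k = (k j : ℝ) := by
  unfold ev
  rw [MvPolynomial.eval_X]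

theorem ev_C (k : Z3) (c : ℝ) : ev (MvPolynomial.C c) k = c := by
  unfold ev
  rw [MvPolynomial.eval_C]

theorem ev_add (k : Z3) (p q : MvPolynomial (Fin 3) ℝ) : ev (p + q) k = ev p k + ev q k := by
  unfold ev
  rw [map_add]

theorem ev_sub (k : Z3) (p q : MvPolynomial (Fin 3) ℝ) : ev (p - q) k = ev p k - ev q k := by
  unfold ev
  rw [map_sub]

theorem ev_mul (k : Z3) (p q : MvPolynomial (Fin 3) ℝ) : ev (p * q) k = ev p k * ev q k := by
  unfold ev
  rw [map_mul]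

theorem ev_pow (k : Z3) (p : MvPolynomial (Fin 3) ℝ) (n : ℕ) : ev (p ^ n) k = ev p k ^ n := by
  unfold ev
  rw [map_pow]

theorem ev_sum {ι : Type*} (k : Z3) (s : Finset ι) (f : ι → MvPolynomial (Fin 3) ℝ) :
    ev (∑ i ∈ s, f i) k = ∑ i ∈ s, ev (f i) k := by
  unfold ev
  rw [map_sum]

theorem ev_Ep (s : Bool) (k : Z3) : ev (Ep s) k = (EZ s k : ℝ) := by
  cases s
  · have h1 : Ep false = ((MvPolynomial.X 1 - MvPolynomial.X 0 ^ 61) ^ 2 + MvPolynomial.X 2 ^ 2) *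
        ((MvPolynomial.X 2 - MvPolynomial.X 1 ^ 61) ^ 2 + MvPolynomial.X 0 ^ 2) *
        ((MvPolynomial.X 0 - MvPolynomial.X 2 ^ 61) ^ 2 + MvPolynomial.X 1 ^ 2) := rfl
    have h2 : EZ false k = ((k 1 - k 0 ^ 61) ^ 2 + k 2 ^ 2) * ((k 2 - k 1 ^ 61) ^ 2 + k 0 ^ 2) *
        ((k 0 - k 2 ^ 61) ^ 2 + k 1 ^ 2) := rfl
    rw [h1, h2]
    simp only [ev_mul, ev_add, ev_sub, ev_pow, ev_X, Int.cast_mul, Int.cast_add, Int.cast_sub,
      Int.cast_pow]
  · have h1 : Ep true = (MvPolynomial.X 0 ^ 2 + MvPolynomial.X 1 ^ 2) *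
        (MvPolynomial.X 1 ^ 2 + MvPolynomial.X 2 ^ 2) *
        (MvPolynomial.X 2 ^ 2 + MvPolynomial.X 0 ^ 2) := rfl
    have h2 : EZ true k = (k 0 ^ 2 + k 1 ^ 2) * (k 1 ^ 2 + k 2 ^ 2) * (k 2 ^ 2 + k 0 ^ 2) := rfl
    rw [h1, h2]
    simp only [ev_mul, ev_add, ev_pow, ev_X, Int.cast_mul, Int.cast_add, Int.cast_pow]

theorem ev_vp (r : Fin 15) (k : Z3) : ev (vp r) k = (vz r k : ℝ) := by
  unfold vp vz
  simp only [ev_mul, ev_add, ev_X, ev_C, Int.cast_mul, Int.cast_add, Int.cast_pow,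
    Int.cast_natCast]

theorem ev_ωp (P : Par) (s : Bool) (k : Z3) : ev (ωp P s) k =
    (EZ s k : ℝ) * ∑ r : Fin 15, ∑ j : Fin 3, P (s, r, j) * (vz r k : ℝ) ^ (1831 + 2 * j.1) := by
  unfold ωp
  simp only [ev_mul, ev_sum, ev_C, ev_pow, ev_vp, ev_Ep]

theorem ωZ_eq (P : Par) (i : Md) : ωZ P i = ev (ωp P i.2) i.1.1 := by
  rw [ev_ωp]
  rfl

theorem EZ_neg (s : Bool) (k : Z3) : EZ s (-k) = EZ s k := by
  have hodd : ∀ a : ℤ, (-a) ^ 61 = -(a ^ 61) := fun a => Odd.neg_pow (by decide) a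
  cases s
  · have h2 : ∀ k : Z3, EZ false k = ((k 1 - k 0 ^ 61) ^ 2 + k 2 ^ 2) *
        ((k 2 - k 1 ^ 61) ^ 2 + k 0 ^ 2) * ((k 0 - k 2 ^ 61) ^ 2 + k 1 ^ 2) := fun _ => rfl
    rw [h2, h2]
    simp only [Pi.neg_apply]
    rw [hodd, hodd, hodd]
    have h3 : ∀ a b : ℤ, (-a - -b) ^ 2 = (a - b) ^ 2 := fun a b => by ring
    have h4 : ∀ a : ℤ, (-a) ^ 2 = a ^ 2 := fun a => neg_sq a
    rw [h3, h3, h3, h4, h4, h4]
  · have h2 : ∀ k : Z3, EZ true k = (k 0 ^ 2 + k 1 ^ 2) * (k 1 ^ 2 + k 2 ^ 2) *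
        (k 2 ^ 2 + k 0 ^ 2) := fun _ => rfl
    rw [h2, h2]
    simp only [Pi.neg_apply, neg_sq]

theorem vz_neg (r : Fin 15) (k : Z3) : vz r (-k) = -vz r k := by
  unfold vz
  simp only [Pi.neg_apply]
  ring

theorem ωp_neg (P : Par) (s : Bool) (k : Z3) : ev (ωp P s) (-k) = -ev (ωp P s) k := by
  rw [ev_ωp, ev_ωp, EZ_neg, ← mul_neg, ← Finset.sum_neg_distrib]
  congr 1
  refine Finset.sum_congr rfl fun r _ => ?_
  rw [← Finset.sum_neg_distrib]
  refine Finset.sum_congr rfl fun j _ => ?_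
  have hodd : Odd (1831 + 2 * j.1) := ⟨915 + j.1, by ring⟩
  rw [vz_neg, Int.cast_neg, hodd.neg_pow, mul_neg]

theorem ωZ_br (P : Par) (i : Md) : ωZ P (br i) = -ωZ P i := by
  rw [ωZ_eq, ωZ_eq]
  exact ωp_neg P i.2 i.1.1

theorem ev_mp (P : Par) (k : Z3) :
    ev (mp P) k = 1 / 2 * (ev (ωp P true) k + ev (ωp P false) k) := by
  unfold mp
  rw [ev_mul, ev_add, ev_C]

theorem ev_np (P : Par) (k : Z3) :
    ev (np P) k = 1 / 2 * (ev (ωp P true) k - ev (ωp P false) k) := by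
  unfold np
  rw [ev_mul, ev_sub, ev_C]

/-! ### Degrees -/

theorem deg_mul {p q : MvPolynomial (Fin 3) ℝ} {a b : ℕ} (hp : p.totalDegree ≤ a)
    (hq : q.totalDegree ≤ b) : (p * q).totalDegree ≤ a + b :=
  (MvPolynomial.totalDegree_mul p q).trans (add_le_add hp hq)

theorem deg_add {p q : MvPolynomial (Fin 3) ℝ} {a : ℕ} (hp : p.totalDegree ≤ a)
    (hq : q.totalDegree ≤ a) : (p + q).totalDegree ≤ a :=
  (MvPolynomial.totalDegree_add p q).trans (max_le hp hq)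

theorem deg_sub {p q : MvPolynomial (Fin 3) ℝ} {a : ℕ} (hp : p.totalDegree ≤ a)
    (hq : q.totalDegree ≤ a) : (p - q).totalDegree ≤ a :=
  (MvPolynomial.totalDegree_sub p q).trans (max_le hp hq)

theorem deg_pow {p : MvPolynomial (Fin 3) ℝ} {a : ℕ} (n : ℕ) (hp : p.totalDegree ≤ a) :
    (p ^ n).totalDegree ≤ n * a :=
  (MvPolynomial.totalDegree_pow p n).trans (Nat.mul_le_mul_left n hp)

theorem deg_X (j : Fin 3) : (MvPolynomial.X j : MvPolynomial (Fin 3) ℝ).totalDegree ≤ 1 :=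
  (MvPolynomial.totalDegree_X j).le

theorem deg_C (c : ℝ) (a : ℕ) : (MvPolynomial.C c : MvPolynomial (Fin 3) ℝ).totalDegree ≤ a :=
  (MvPolynomial.totalDegree_C c).le.trans (Nat.zero_le a)

theorem deg_Ep (s : Bool) : (Ep s).totalDegree ≤ 366 := by
  cases s
  · have h1 : Ep false = ((MvPolynomial.X 1 - MvPolynomial.X 0 ^ 61) ^ 2 + MvPolynomial.X 2 ^ 2) *
        ((MvPolynomial.X 2 - MvPolynomial.X 1 ^ 61) ^ 2 + MvPolynomial.X 0 ^ 2) *
        ((MvPolynomial.X 0 - MvPolynomial.X 2 ^ 61) ^ 2 + MvPolynomial.X 1 ^ 2) := rfl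
    have h2 : ∀ a b c : Fin 3, ((MvPolynomial.X a - MvPolynomial.X b ^ 61) ^ 2 +
        MvPolynomial.X c ^ 2 : MvPolynomial (Fin 3) ℝ).totalDegree ≤ 122 := by
      intro a b c
      apply deg_add
      · have h3 : (MvPolynomial.X a - MvPolynomial.X b ^ 61 :
            MvPolynomial (Fin 3) ℝ).totalDegree ≤ 61 := by
          apply deg_sub
          · exact (deg_X a).trans (by omega)
          · have := deg_pow 61 (deg_X b)
            omega
        have := deg_pow 2 h3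
        omega
      · have := deg_pow 2 (deg_X c)
        omega
    rw [h1]
    exact deg_mul (deg_mul (h2 _ _ _) (h2 _ _ _)) (h2 _ _ _)
  · have h1 : Ep true = (MvPolynomial.X 0 ^ 2 + MvPolynomial.X 1 ^ 2) *
        (MvPolynomial.X 1 ^ 2 + MvPolynomial.X 2 ^ 2) *
        (MvPolynomial.X 2 ^ 2 + MvPolynomial.X 0 ^ 2) := rfl
    have h2 : ∀ a b : Fin 3, (MvPolynomial.X a ^ 2 + MvPolynomial.X b ^ 2 :
        MvPolynomial (Fin 3) ℝ).totalDegree ≤ 2 := by
      intro a b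
      apply deg_add
      · have := deg_pow 2 (deg_X a)
        omega
      · have := deg_pow 2 (deg_X b)
        omega
    rw [h1]
    exact (deg_mul (deg_mul (h2 _ _) (h2 _ _)) (h2 _ _)).trans (by omega)

theorem deg_vp (r : Fin 15) : (vp r).totalDegree ≤ 1 := by
  unfold vp
  apply deg_add
  · apply deg_add
    · exact deg_X 0
    · exact deg_mul (deg_C _ 0) (deg_X 1)
  · exact deg_mul (deg_C _ 0) (deg_X 2)

theorem deg_ωp (P : Par) (s : Bool) : (ωp P s).totalDegree ≤ 2201 := by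
  unfold ωp
  have h1 : (∑ r : Fin 15, ∑ j : Fin 3, MvPolynomial.C (P (s, r, j)) * vp r ^ (1831 + 2 * j.1) :
      MvPolynomial (Fin 3) ℝ).totalDegree ≤ 1835 := by
    apply MvPolynomial.totalDegree_finsetSum_le
    intro r _
    apply MvPolynomial.totalDegree_finsetSum_le
    intro j _
    have h2 := deg_pow (1831 + 2 * j.1) (deg_vp r)
    have h3 := deg_mul (deg_C (P (s, r, j)) 0) h2
    have h4 := j.2
    omega
  exact deg_mul (deg_Ep s) h1

/-! ### The main modes -/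

theorem kx0 {n : ℕ} {j : Fin 3} (h : j.1 ≠ n % 3) : kx n j = 0 := if_neg h

theorem kx1 {n : ℕ} {j : Fin 3} (h : j.1 = n % 3) : kx n j = (al n : ℤ) := if_pos h

theorem al_succ (n : ℕ) : ((al (n + 1) : ℕ) : ℤ) = (al n : ℤ) ^ 61 := by
  have : al (n + 1) = al n ^ 61 := rfl
  rw [this]
  exact Nat.cast_pow _ _

theorem EZ_X (n : ℕ) : EZ true (kx n) = 0 := by
  have h2 : ∀ k : Z3, EZ true k = (k 0 ^ 2 + k 1 ^ 2) * (k 1 ^ 2 + k 2 ^ 2) *
      (k 2 ^ 2 + k 0 ^ 2) := fun _ => rfl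
  rw [h2]
  have h3 : n % 3 = 0 ∨ n % 3 = 1 ∨ n % 3 = 2 := by omega
  rcases h3 with h | h | h
  · have e1 : kx n 1 = 0 := kx0 (by rw [h]; decide)
    have e2 : kx n 2 = 0 := kx0 (by rw [h]; decide)
    rw [e1, e2]
    ring
  · have e1 : kx n 0 = 0 := kx0 (by rw [h]; decide)
    have e2 : kx n 2 = 0 := kx0 (by rw [h]; decide)
    rw [e1, e2]
    ring
  · have e1 : kx n 0 = 0 := kx0 (by rw [h]; decide)
    have e2 : kx n 1 = 0 := kx0 (by rw [h]; decide)
    rw [e1, e2]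
    ring

theorem EZ_Y (n : ℕ) : EZ false (kx n + kx (n + 1)) = 0 := by
  have h2 : ∀ k : Z3, EZ false k = ((k 1 - k 0 ^ 61) ^ 2 + k 2 ^ 2) *
      ((k 2 - k 1 ^ 61) ^ 2 + k 0 ^ 2) * ((k 0 - k 2 ^ 61) ^ 2 + k 1 ^ 2) := fun _ => rfl
  have hz : ∀ a b : ℤ, a = b → ∀ c : ℤ, c = 0 → (a - b) ^ 2 + c ^ 2 = 0 := by
    intro a b h c hc
    rw [h, hc, sub_self]
    rfl
  rw [h2]
  have h3 : n % 3 = 0 ∨ n % 3 = 1 ∨ n % 3 = 2 := by omega
  rcases h3 with h | h | h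
  · have h' : (n + 1) % 3 = 1 := by omega
    have e0 : kx n 0 = (al n : ℤ) := kx1 (by rw [h]; rfl)
    have e1 : kx n 1 = 0 := kx0 (by rw [h]; decide)
    have e2 : kx n 2 = 0 := kx0 (by rw [h]; decide)
    have f0 : kx (n + 1) 0 = 0 := kx0 (by rw [h']; decide)
    have f1 : kx (n + 1) 1 = (al (n + 1) : ℤ) := kx1 (by rw [h']; rfl)
    have f2 : kx (n + 1) 2 = 0 := kx0 (by rw [h']; decide)
    simp only [Pi.add_apply]
    rw [e0, e1, e2, f0, f1, f2]
    simp only [zero_add, add_zero]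
    rw [al_succ]
    rw [hz _ _ rfl 0 rfl, zero_mul, zero_mul]
  · have h' : (n + 1) % 3 = 2 := by omega
    have e0 : kx n 0 = 0 := kx0 (by rw [h]; decide)
    have e1 : kx n 1 = (al n : ℤ) := kx1 (by rw [h]; rfl)
    have e2 : kx n 2 = 0 := kx0 (by rw [h]; decide)
    have f0 : kx (n + 1) 0 = 0 := kx0 (by rw [h']; decide)
    have f1 : kx (n + 1) 1 = 0 := kx0 (by rw [h']; decide)
    have f2 : kx (n + 1) 2 = (al (n + 1) : ℤ) := kx1 (by rw [h']; rfl)
    simp only [Pi.add_apply]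
    rw [e0, e1, e2, f0, f1, f2]
    simp only [zero_add, add_zero]
    rw [al_succ]
    rw [hz (((al n : ℕ) : ℤ) ^ 61) _ rfl 0 rfl, mul_zero, zero_mul]
  · have h' : (n + 1) % 3 = 0 := by omega
    have e0 : kx n 0 = 0 := kx0 (by rw [h]; decide)
    have e1 : kx n 1 = 0 := kx0 (by rw [h]; decide)
    have e2 : kx n 2 = (al n : ℤ) := kx1 (by rw [h]; rfl)
    have f0 : kx (n + 1) 0 = (al (n + 1) : ℤ) := kx1 (by rw [h']; rfl)
    have f1 : kx (n + 1) 1 = 0 := kx0 (by rw [h']; decide)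
    have f2 : kx (n + 1) 2 = 0 := kx0 (by rw [h']; decide)
    simp only [Pi.add_apply]
    rw [e0, e1, e2, f0, f1, f2]
    simp only [zero_add, add_zero]
    rw [al_succ]
    rw [hz (((al n : ℕ) : ℤ) ^ 61) (((al n : ℕ) : ℤ) ^ 61) rfl 0 rfl, mul_zero]

theorem ωZ_zero (P : Par) (i : Md) (h : EZ i.2 i.1.1 = 0) : ωZ P i = 0 := by
  unfold ωZ
  rw [h, Int.cast_zero, zero_mul]

/-! ### Signs -/

theorem sgz_neg (k : Z3) : sgz (-k) = -sgz k := by
  unfold sgz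
  simp only [Pi.neg_apply, Int.sign_neg, ne_eq, neg_eq_zero]
  split_ifs <;> rfl

theorem sgz_pm {k : Z3} (hk : k ≠ 0) : sgz k = 1 ∨ sgz k = -1 := by
  have hs : ∀ a : ℤ, a ≠ 0 → a.sign = 1 ∨ a.sign = -1 := by
    intro a ha
    rcases lt_or_gt_of_ne ha with h | h
    · exact Or.inr (Int.sign_eq_neg_one_of_neg h)
    · exact Or.inl (Int.sign_eq_one_of_pos h)
  unfold sgz
  split_ifs with h0 h1
  · exact hs _ h0
  · exact hs _ h1
  · apply hs
    intro h2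
    apply hk
    push Not at h0 h1
    funext j
    fin_cases j
    · exact h0
    · exact h1
    · exact h2

theorem t_SPD : S_SPD := by
  classical
  intro hLV hCODE P
  obtain ⟨l1, l2, l3, l4, l5, l6, l7, l8, l9, l10, l11⟩ := hLV
  obtain ⟨c1, c2, c3, c4, c5, c6⟩ := hCODE
  refine ⟨?_, ?_, ?_, ?_, ?_⟩
  · intro i
    by_cases hi : σM i = 0
    · rw [hi, mul_zero]
      symm
      obtain ⟨n, hn⟩ := l3 i hi
      rcases hn with h | h | h | h
      · rw [h]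
        exact ωZ_zero P _ (EZ_X n)
      · rw [h, ωZ_br, ωZ_zero P _ (EZ_X n), neg_zero]
      · rw [h]
        exact ωZ_zero P _ (EZ_Y n)
      · rw [h, ωZ_br, ωZ_zero P _ (EZ_Y n), neg_zero]
    · obtain ⟨hl, -⟩ := l4 i hi
      have hs : σM i = (sgz i.1.1 : ℝ) := by
        unfold σM at hi ⊢
        split_ifs at hi ⊢ with hh
        · exact absurd rfl hi
        · rfl
      rw [hl, hs]
      have hbr : sgz (br i).1.1 = -sgz i.1.1 := sgz_neg i.1.1
      have hex : ∃ j : Md, cd j = cd i ∧ sgz j.1.1 = 1 := by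
        rcases sgz_pm i.1.2 with h | h
        · exact ⟨i, rfl, h⟩
        · exact ⟨br i, c3 i, by rw [hbr, h]; rfl⟩
      have hSP : SP P (cd i) = ωZ P hex.choose := by
        unfold SP
        rw [dif_pos hex]
      obtain ⟨hc1, hc2⟩ := hex.choose_spec
      rw [hSP]
      rcases sgz_pm i.1.2 with h | h
      · rcases c2 i _ hc1.symm with hj | hj
        · rw [hj, h, Int.cast_one, mul_one]
        · exfalso
          rw [hj, hbr, h] at hc2
          omega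
      · rcases c2 i _ hc1.symm with hj | hj
        · exfalso
          rw [hj, h] at hc2
          omega
        · rw [hj, ωZ_br, h]
          push_cast
          ring
  · intro k
    rw [ev_mp, ev_mp, ev_np, ev_np, ωp_neg, ωp_neg]
    constructor <;> ring
  · intro i
    rw [ωZ_eq, ev_mp, ev_np]
    obtain ⟨k, s⟩ := i
    cases s
    · simp only [Bool.false_eq_true, if_false]
      ring
    · simp only [if_true]
      ring
  · unfold mp
    exact (deg_mul (deg_C _ 0) (deg_add (deg_ωp P true) (deg_ωp P false))).trans (by omega)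
  · unfold np
    exact (deg_mul (deg_C _ 0) (deg_sub (deg_ωp P true) (deg_ωp P false))).trans (by omega)

end Pool.Agent.Y692.EP.SPD
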